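import Pool.Agent.helper11.CFL.Spec

/-!
Row PD of the project CFL (MP_95f808): positive definiteness of the weighted Laplacian plus the
all ones matrix.
-/

namespace Pool.Agent.helper11.CFL

open Finset Matrix

theorem PD_inc_sum {V E : Type} [Fintype V] [DecidableEq V] (src tgt : E → V) (e : E)
    (x : V → ℝ) : ∑ v, inc src tgt e v * x v = x (src e) - x (tgt e) := by
  simp [inc, sub_mul, Finset.sum_sub_distrib]

theorem PD_key {V E : Type} [Fintype V] [DecidableEq V] [Fintype E] (src tgt : E → V)
    (c : E → ℝ) (x : V → ℝ) :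
    x ⬝ᵥ (Mat src tgt c *ᵥ x) =
      ∑ e, c e * (x (src e) - x (tgt e)) ^ 2 + (∑ v, x v) ^ 2 := by
  have h1 : ∀ u, (Mat src tgt c *ᵥ x) u =
      ∑ e, c e * inc src tgt e u * (x (src e) - x (tgt e)) + ∑ v, x v := by
    intro u
    simp only [Matrix.mulVec, dotProduct, Mat]
    calc ∑ v, (∑ e, c e * inc src tgt e u * inc src tgt e v + 1) * x v
        = ∑ v, (∑ e, c e * inc src tgt e u * (inc src tgt e v * x v) + x v) := by
          refine Finset.sum_congr rfl fun v _ => ?_
          rw [add_mul, Finset.sum_mul, one_mul]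
          congr 1
          refine Finset.sum_congr rfl fun e _ => ?_
          ring
      _ = ∑ e, c e * inc src tgt e u * (x (src e) - x (tgt e)) + ∑ v, x v := by
          rw [Finset.sum_add_distrib, Finset.sum_comm]
          congr 1
          refine Finset.sum_congr rfl fun e _ => ?_
          rw [← Finset.mul_sum, PD_inc_sum]
  simp only [dotProduct]
  calc ∑ u, x u * (Mat src tgt c *ᵥ x) u
      = ∑ u, (∑ e, c e * (x (src e) - x (tgt e)) * (inc src tgt e u * x u) +
          (∑ v, x v) * x u) := by
        refine Finset.sum_congr rfl fun u _ => ?_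
        rw [h1, mul_add, Finset.mul_sum]
        congr 1
        · refine Finset.sum_congr rfl fun e _ => ?_
          ring
        · ring
    _ = ∑ e, c e * (x (src e) - x (tgt e)) ^ 2 + (∑ v, x v) ^ 2 := by
        rw [Finset.sum_add_distrib, Finset.sum_comm, ← Finset.mul_sum, sq (∑ v, x v)]
        congr 1
        refine Finset.sum_congr rfl fun e _ => ?_
        rw [← Finset.mul_sum, PD_inc_sum]
        ring

theorem PD : PD_stmt := by
  intro V E _ _ _ _ _ src tgt T hT c hc
  rw [Matrix.posDef_iff_dotProduct_mulVec]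
  refine ⟨?_, ?_⟩
  · ext u v
    simp only [Matrix.conjTranspose_apply, Mat, star_trivial]
    congr 1
    refine Finset.sum_congr rfl fun e _ => ?_
    ring
  · intro x hx
    rw [star_trivial, PD_key]
    have h1 : ∀ e ∈ (Finset.univ : Finset E), 0 ≤ c e * (x (src e) - x (tgt e)) ^ 2 :=
      fun e _ => mul_nonneg (hc e).le (sq_nonneg _)
    have h2 : 0 ≤ ∑ e, c e * (x (src e) - x (tgt e)) ^ 2 := Finset.sum_nonneg h1
    have h3 : 0 ≤ (∑ v, x v) ^ 2 := sq_nonneg _
    rcases (add_nonneg h2 h3).lt_or_eq with h | h
    · exact h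
    · exfalso
      have h4 : ∑ e, c e * (x (src e) - x (tgt e)) ^ 2 = 0 := by linarith
      have h5 : (∑ v, x v) ^ 2 = 0 := by linarith
      have h6 : ∑ v, x v = 0 := by simpa using h5
      have h7 := (Finset.sum_eq_zero_iff_of_nonneg h1).1 h4
      have h8 : ∀ e ∈ T, x (src e) = x (tgt e) := by
        intro e _
        have h9 := h7 e (Finset.mem_univ e)
        rcases mul_eq_zero.1 h9 with h10 | h10
        · exact absurd h10 (hc e).ne'
        · have := pow_eq_zero_iff (two_ne_zero) |>.1 h10
          linarith
      have h10 := hT.2 x h8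
      apply hx
      funext u
      have h11 : ∑ v, x v = Fintype.card V * x u := by
        rw [Finset.sum_congr rfl (fun v _ => h10 v u)]
        simp
      rw [h11] at h6
      rcases mul_eq_zero.1 h6 with h12 | h12
      · exact absurd h12 (by exact_mod_cast Fintype.card_ne_zero)
      · simpa using h12

end Pool.Agent.helper11.CFL
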